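import Mathlib

/-!
# A finitely presented intersection-full group without `F₂ × ℤ ^ 8`

The group is the right-angled Artin group `(F₂ × F₂) * ℤ`.

* In `F × V`, where `F` is free of rank two and `V` is free on `v_j` (`j ∈ ℤ`), let `q : F → ℤ` be
  the exponent sum of one generator `x` and `σ : V → ℤ` the total exponent sum.  For a nonempty set
  `J` of indices and `i ∈ J` put `H i = {(g, v) | v ∈ ⟨v_j : j ∈ J, j ≠ i⟩, q g = σ v}`, and
  `H i = 1` for `i ∉ J`.  The intersection of the `H i` over `i ∈ I` is finitely generated
  if and only if `I ≠ J`.  Since `V` embeds in `F`, all this happens in `F × F`.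
* Taking free products of these families gives every configuration in a free product of copies of
  `F × F`, which embeds in `(F × F) * ℤ`.
* The group `(F × F) * ℤ` is poly-free of length three, so it contains no `ℤ ^ 8`.
-/

namespace Pool.Agent.Results.MP_d567b2_al.IntersectionFull

open Monoid
open scoped commutatorElement

/-! ### Free products of subgroups -/

section coprod

variable {A : Type} [Group A]

/-- the free product of countably many copies of `A` -/
abbrev C (A : Type) [Group A] : Type := CoprodI (fun _ : ℤ => A)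

/-- The subgroup generated by the subgroups `K j` of the factors. -/
def S (K : ℤ → Subgroup A) : Subgroup (C A) :=
  Subgroup.closure {g | ∃ j, ∃ m ∈ K j, g = CoprodI.of (i := j) m}

theorem of_mem_S (K : ℤ → Subgroup A) (j : ℤ) (m : A) (hm : m ∈ K j) :
    (CoprodI.of (i := j) m : C A) ∈ S K :=
  Subgroup.subset_closure ⟨j, m, hm, rfl⟩

open Classical in
/-- all letters of the reduced word lie in the given subgroups -/
def Letters (K : ℤ → Subgroup A) (w : CoprodI.Word (fun _ : ℤ => A)) : Prop :=
  ∀ l ∈ w.toList, l.2 ∈ K l.1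

open Classical in
theorem letters_smul (K : ℤ → Subgroup A) (j : ℤ) (m : A) (hm : m ∈ K j)
    (w : CoprodI.Word (fun _ : ℤ => A)) (hw : Letters K w) :
    Letters K ((CoprodI.of (i := j) m : C A) • w) := by
  rintro ⟨i, x⟩ hx
  rw [CoprodI.Word.mem_smul_iff] at hx
  rcases hx with ⟨_, h⟩ | ⟨_, hij, h | ⟨m', hm', h⟩ | ⟨_, h⟩⟩
  · exact hw _ h
  · exact hw _ (List.mem_of_mem_tail h)
  · subst hij
    have h1 : (⟨i, m'⟩ : Σ _ : ℤ, A) ∈ w.toList := List.mem_of_mem_head? hm'
    have h2 : m' ∈ K i := hw _ h1
    change x ∈ K i
    have h3 : x = m * m' := h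
    rw [h3]
    exact (K i).mul_mem hm h2
  · subst hij
    change x ∈ K i
    have h3 : x = m := h
    rw [h3]
    exact hm

open Classical in
theorem mem_S_iff (K : ℤ → Subgroup A) (g : C A) :
    g ∈ S K ↔ Letters K (g • (CoprodI.Word.empty : CoprodI.Word (fun _ : ℤ => A))) := by
  constructor
  · intro hg
    have key : ∀ w : CoprodI.Word (fun _ : ℤ => A), Letters K w → Letters K (g • w) := by
      induction hg using Subgroup.closure_induction'' with
      | mem x hx =>
        obtain ⟨j, m, hm, rfl⟩ := hx
        exact fun w hw => letters_smul K j m hm w hw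
      | inv_mem x hx =>
        obtain ⟨j, m, hm, rfl⟩ := hx
        intro w hw
        rw [← map_inv]
        exact letters_smul K j m⁻¹ ((K j).inv_mem hm) w hw
      | one => intro w hw; rwa [one_smul]
      | mul x y _ _ hx hy => intro w hw; rw [mul_smul]; exact hx _ (hy _ hw)
    refine key _ ?_
    intro l hl
    simp [CoprodI.Word.empty] at hl
  · intro h
    have h1 : g = (g • (CoprodI.Word.empty : CoprodI.Word (fun _ : ℤ => A))).prod := by
      rw [CoprodI.Word.prod_smul, CoprodI.Word.prod_empty, mul_one]
    rw [h1]
    generalize g • (CoprodI.Word.empty : CoprodI.Word (fun _ : ℤ => A)) = w at h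
    rw [CoprodI.Word.prod]
    refine Subgroup.list_prod_mem _ ?_
    intro x hx
    obtain ⟨l, hl, rfl⟩ := List.mem_map.1 hx
    exact of_mem_S K l.1 l.2 (h l hl)

theorem S_mono {K L : ℤ → Subgroup A} (h : ∀ j, K j ≤ L j) : S K ≤ S L := by
  rw [S, Subgroup.closure_le]
  rintro _ ⟨j, m, hm, rfl⟩
  exact of_mem_S L j m (h j hm)

theorem iInf_S {ι : Type} (I : Finset ι) (K : ι → ℤ → Subgroup A) :
    (⨅ i ∈ I, S (K i)) = S (fun j => ⨅ i ∈ I, K i j) := by
  classical
  apply le_antisymm
  · intro g hg
    rw [mem_S_iff]
    intro l hl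
    simp only [Subgroup.mem_iInf] at hg ⊢
    intro i hi
    exact (mem_S_iff _ _).1 (hg i hi) l hl
  · refine le_iInf fun i => le_iInf fun hi => ?_
    exact S_mono fun j => iInf_le_of_le i (iInf_le_of_le hi le_rfl)

/-- projection to a factor -/
noncomputable def proj (j : ℤ) : C A →* A :=
  open Classical in CoprodI.lift fun i => if i = j then MonoidHom.id A else 1

theorem fg_map {A B : Type} [Group A] [Group B] (f : A →* B) {H : Subgroup A} (h : H.FG) :
    (H.map f).FG := by
  classical
  obtain ⟨T, rfl⟩ := h
  refine ⟨T.image f, ?_⟩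
  rw [MonoidHom.map_closure, Finset.coe_image]

theorem fg_of_map {A B : Type} [Group A] [Group B] (f : A →* B) (hf : Function.Injective f)
    {H : Subgroup A} (h : (H.map f).FG) : H.FG := by
  classical
  obtain ⟨T, hT⟩ := h
  have hsub : (T : Set B) ⊆ Set.range f := by
    intro b hb
    have h1 : b ∈ H.map f := by
      rw [← hT]
      exact Subgroup.subset_closure hb
    obtain ⟨a, _, ha⟩ := h1
    exact ⟨a, ha⟩
  refine ⟨T.preimage f hf.injOn, ?_⟩
  apply Subgroup.map_injective hf
  rw [MonoidHom.map_closure, Finset.coe_preimage, Set.image_preimage_eq_of_subset hsub, hT]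

theorem fg_of_S_fg (K : ℤ → Subgroup A) (h : (S K).FG) (j : ℤ) : (K j).FG := by
  classical
  have h1 : (S K).map (proj j) = K j := by
    apply le_antisymm
    · rw [S, MonoidHom.map_closure, Subgroup.closure_le]
      rintro _ ⟨_, ⟨i, m, hm, rfl⟩, rfl⟩
      rw [proj, CoprodI.lift_of]
      split_ifs with hij
      · subst hij
        exact hm
      · exact (K j).one_mem
    · intro m hm
      refine ⟨CoprodI.of (i := j) m, of_mem_S K j m hm, ?_⟩
      rw [proj, CoprodI.lift_of, if_pos rfl]
      rfl
  rw [← h1]
  exact fg_map _ h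

theorem S_fg (K : ℤ → Subgroup A) (T : Finset ℤ) (hT : ∀ j, j ∉ T → K j = ⊥)
    (hK : ∀ j, (K j).FG) : (S K).FG := by
  classical
  choose B hB using hK
  rw [Subgroup.fg_iff]
  refine ⟨⋃ j ∈ T, (fun m => (CoprodI.of (i := j) m : C A)) '' (B j : Set A), ?_, ?_⟩
  · apply le_antisymm
    · rw [Subgroup.closure_le]
      intro g hg
      simp only [Set.mem_iUnion] at hg
      obtain ⟨j, _, m, hm, rfl⟩ := hg
      refine of_mem_S K j m ?_
      rw [← hB j]
      exact Subgroup.subset_closure hm
    · rw [S, Subgroup.closure_le]
      rintro _ ⟨j, m, hm, rfl⟩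
      by_cases hj : j ∈ T
      · rw [← hB j] at hm
        have h1 : (Subgroup.closure (B j : Set A)).map (CoprodI.of (M := fun _ : ℤ => A) (i := j)) ≤
            Subgroup.closure (⋃ j ∈ T, (fun m => (CoprodI.of (i := j) m : C A)) '' (B j : Set A)) := by
          rw [MonoidHom.map_closure]
          refine Subgroup.closure_mono ?_
          intro x hx
          simp only [Set.mem_iUnion]
          exact ⟨j, hj, hx⟩
        exact h1 (Subgroup.mem_map_of_mem _ hm)
      · rw [hT j hj, Subgroup.mem_bot] at hm
        rw [hm, map_one]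
        exact Subgroup.one_mem _
  · exact Set.Finite.biUnion T.finite_toSet fun j _ => (B j).finite_toSet.image _

end coprod

/-! ### A kernel that is not finitely generated -/

/-- an auxiliary wreath product -/
@[ext]
structure W0 where
  /-- the lamps -/
  f : ℤ → ℤ
  /-- the position -/
  a : ℤ

namespace W0

instance : Mul W0 := ⟨fun x y => ⟨fun v => x.f v + y.f (v - x.a), x.a + y.a⟩⟩
instance : One W0 := ⟨⟨fun _ => 0, 0⟩⟩
instance : Inv W0 := ⟨fun x => ⟨fun v => - x.f (v + x.a), - x.a⟩⟩

@[simp] theorem mul_f (x y : W0) (v : ℤ) : (x * y).f v = x.f v + y.f (v - x.a) := rfl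
@[simp] theorem mul_a (x y : W0) : (x * y).a = x.a + y.a := rfl
@[simp] theorem one_f (v : ℤ) : (1 : W0).f v = 0 := rfl
@[simp] theorem one_a : (1 : W0).a = 0 := rfl
@[simp] theorem inv_f (x : W0) (v : ℤ) : (x⁻¹).f v = - x.f (v + x.a) := rfl
@[simp] theorem inv_a (x : W0) : (x⁻¹).a = - x.a := rfl

instance : Group W0 where
  mul_assoc x y z := by
    refine W0.ext ?_ ?_
    · funext v
      simp [add_assoc, sub_sub]
    · simp [add_assoc]
  one_mul x := by
    refine W0.ext ?_ ?_
    · funext v; simp
    · simp
  mul_one x := by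
    refine W0.ext ?_ ?_
    · funext v; simp
    · simp
  inv_mul_cancel x := by
    refine W0.ext ?_ ?_
    · funext v; simp
    · simp

end W0

/-- the free group of rank two -/
abbrev F : Type := FreeGroup Bool

/-- the exponent sum of the generator `true` -/
def q : F →* Multiplicative ℤ := FreeGroup.lift fun b => if b then Multiplicative.ofAdd 1 else 1

/-- first generator -/
def x : F := FreeGroup.of true
/-- second generator -/
def y : F := FreeGroup.of false

theorem q_x : q x = Multiplicative.ofAdd 1 := by
  rw [q, x, FreeGroup.lift_apply_of]; rfl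
theorem q_y : q y = 1 := by
  rw [q, y, FreeGroup.lift_apply_of]; rfl

/-- the map to the wreath product -/
def lam : F →* W0 := FreeGroup.lift fun b =>
  if b then ⟨fun _ => 0, 1⟩ else ⟨fun v => if v = 0 then 1 else 0, 0⟩

theorem lam_x : lam x = ⟨fun _ => 0, 1⟩ := by
  rw [lam, x, FreeGroup.lift_apply_of]; rfl
theorem lam_y : lam y = ⟨fun v => if v = 0 then 1 else 0, 0⟩ := by
  rw [lam, y, FreeGroup.lift_apply_of]; rfl

theorem lam_a (g : F) : (lam g).a = Multiplicative.toAdd (q g) := by
  induction g using FreeGroup.induction_on with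
  | C1 => simp
  | of b =>
    cases b
    · change (lam y).a = Multiplicative.toAdd (q y)
      rw [lam_y, q_y]; rfl
    · change (lam x).a = Multiplicative.toAdd (q x)
      rw [lam_x, q_x]; rfl
  | inv_of b h => rw [map_inv, map_inv, W0.inv_a, h]; rfl
  | mul a b ha hb => rw [map_mul, map_mul, W0.mul_a, ha, hb]; rfl

theorem lam_bd (g : F) : ∃ B : ℤ, ∀ v, B < |v| → (lam g).f v = 0 := by
  induction g using FreeGroup.induction_on with
  | C1 => exact ⟨0, fun v _ => by simp⟩
  | of b =>
    cases b
    · refine ⟨0, fun v hv => ?_⟩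
      change (lam y).f v = 0
      rw [lam_y]
      have : v ≠ 0 := abs_pos.1 hv
      simp [this]
    · refine ⟨0, fun v hv => ?_⟩
      change (lam x).f v = 0
      rw [lam_x]
  | inv_of b h =>
    obtain ⟨B, hB⟩ := h
    refine ⟨B + |(lam (FreeGroup.of b)).a|, fun v hv => ?_⟩
    rw [map_inv, W0.inv_f, hB, neg_zero]
    have h1 := abs_sub_abs_le_abs_sub v (-(lam (FreeGroup.of b)).a)
    rw [abs_neg, sub_neg_eq_add] at h1
    linarith
  | mul a b ha hb =>
    obtain ⟨B, hB⟩ := ha
    obtain ⟨D, hD⟩ := hb
    refine ⟨max B (D + |(lam a).a|), fun v hv => ?_⟩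
    rw [map_mul, W0.mul_f, hB v (lt_of_le_of_lt (le_max_left _ _) hv), hD, add_zero]
    have h1 := abs_sub_abs_le_abs_sub v ((lam a).a)
    have h2 := lt_of_le_of_lt (le_max_right _ _) hv
    linarith

theorem ker_not_fg : ¬ q.ker.FG := by
  classical
  rintro ⟨T, hT⟩
  choose B hB using lam_bd
  have hB0 : ∃ R : ℤ, ∀ g ∈ T, B g ≤ R := by
    refine ⟨∑ g ∈ T, |B g|, fun g hg => ?_⟩
    exact (le_abs_self _).trans
      (Finset.single_le_sum (f := fun g => |B g|) (fun g _ => abs_nonneg _) hg)
  obtain ⟨R, hR⟩ := hB0
  have key : ∀ g ∈ q.ker, ∀ v, R < |v| → (lam g).f v = 0 := by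
    intro g hg
    rw [← hT] at hg
    have hker : ∀ g ∈ Subgroup.closure (T : Set F), (lam g).a = 0 := by
      intro g hg
      rw [hT, MonoidHom.mem_ker] at hg
      rw [lam_a, hg]
      rfl
    induction hg using Subgroup.closure_induction with
    | mem g hg => exact fun v hv => hB g v (lt_of_le_of_lt (hR g hg) hv)
    | one => intro v _; simp
    | mul a b ha hb iha ihb =>
      intro v hv
      rw [map_mul, W0.mul_f, hker a ha, sub_zero, iha v hv, ihb v hv, add_zero]
    | inv a ha iha =>
      intro v hv
      rw [map_inv, W0.inv_f, hker a ha, add_zero, iha v hv, neg_zero]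
  have hpow : ∀ n : ℕ, lam (x ^ n) = ⟨fun _ => 0, n⟩ := by
    intro n
    induction n with
    | zero => rw [pow_zero, map_one]; rfl
    | succ n ih =>
      rw [pow_succ, map_mul, ih, lam_x]
      refine W0.ext ?_ ?_
      · funext v; simp
      · simp
  obtain ⟨n, hn⟩ : ∃ n : ℕ, R < n := ⟨(R + 1).toNat, by
    have := Int.self_le_toNat (R + 1)
    linarith⟩
  have h1 := key (x ^ n * y * (x ^ n)⁻¹) (by
    rw [MonoidHom.mem_ker, map_mul, map_mul, map_inv, q_y]; simp) n (by simpa using hn)
  rw [map_mul, map_mul, map_inv, hpow, lam_y] at h1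
  simp at h1

/-! ### The basic configurations in `F × V` -/

/-- every configuration with a single non finitely generated intersection is realizable -/
def Blk (A : Type) [Group A] : Prop :=
  ∀ (k : ℕ) (J : Finset (Fin k)), J.Nonempty → ∃ H : Fin k → Subgroup A,
    ∀ I : Finset (Fin k), I.Nonempty → ((⨅ i ∈ I, H i).FG ↔ I ≠ J)

theorem map_iInf_finset {A B : Type} [Group A] [Group B] (f : A →* B)
    (hf : Function.Injective f) {k : ℕ} (H : Fin k → Subgroup A) (I : Finset (Fin k))
    (hI : I.Nonempty) : (⨅ i ∈ I, (H i).map f) = (⨅ i ∈ I, H i).map f := by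
  apply le_antisymm
  · intro g hg
    simp only [Subgroup.mem_iInf] at hg
    obtain ⟨i0, hi0⟩ := hI
    obtain ⟨a, _, rfl⟩ := hg i0 hi0
    refine ⟨a, ?_, rfl⟩
    simp only [SetLike.mem_coe, Subgroup.mem_iInf]
    intro i hi
    obtain ⟨b, hb, hab⟩ := hg i hi
    rw [← hf hab]
    exact hb
  · refine le_iInf fun i => le_iInf fun hi => ?_
    exact Subgroup.map_mono (iInf_le_of_le i (iInf_le_of_le hi le_rfl))

theorem fg_map_iff {A B : Type} [Group A] [Group B] (f : A →* B)
    (hf : Function.Injective f) (H : Subgroup A) : (H.map f).FG ↔ H.FG :=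
  ⟨fg_of_map f hf, fg_map f⟩

theorem Blk.map {A B : Type} [Group A] [Group B] (f : A →* B)
    (hf : Function.Injective f) (h : Blk A) : Blk B := by
  intro k J hJ
  obtain ⟨H, hH⟩ := h k J hJ
  refine ⟨fun i => (H i).map f, fun I hI => ?_⟩
  rw [map_iInf_finset f hf H I hI, fg_map_iff f hf]
  exact hH I hI

/-- the free group with basis indexed by the integers -/
abbrev V : Type := C (Multiplicative ℤ)

/-- exponent sum -/
def sig : V →* Multiplicative ℤ := CoprodI.lift fun _ => MonoidHom.id _

/-- the basis elements -/
def vv (j : ℤ) : V := CoprodI.of (i := j) (Multiplicative.ofAdd (1 : ℤ))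

theorem sig_of (j : ℤ) (m : Multiplicative ℤ) : sig (CoprodI.of (i := j) m) = m := by
  rw [sig, CoprodI.lift_of]; rfl

open Classical in
theorem blk_FV : Blk (F × V) := by
  intro k J hJ
  let code : Fin k → ℤ := fun i => ((i : ℕ) : ℤ)
  have hcode : Function.Injective code := fun a b h => Fin.ext (Int.natCast_inj.1 h)
  let K : Fin k → ℤ → Subgroup (Multiplicative ℤ) := fun i j =>
    if ∃ l ∈ J, l ≠ i ∧ code l = j then ⊤ else ⊥
  let H : Fin k → Subgroup (F × V) := fun i =>
    if i ∈ J then (S (K i)).comap (MonoidHom.snd F V) ⊓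
      MonoidHom.eqLocus (q.comp (MonoidHom.fst F V)) (sig.comp (MonoidHom.snd F V)) else ⊥
  refine ⟨H, fun I hI => ?_⟩
  by_cases hIJ : I ⊆ J
  · -- description of the intersection
    have hmem : ∀ p : F × V, p ∈ (⨅ i ∈ I, H i) ↔
        p.2 ∈ S (fun j => ⨅ i ∈ I, K i j) ∧ q p.1 = sig p.2 := by
      intro p
      rw [← iInf_S]
      simp only [Subgroup.mem_iInf]
      constructor
      · intro h
        refine ⟨fun i hi => ?_, ?_⟩
        · have h1 := h i hi
          simp only [H, if_pos (hIJ hi)] at h1
          exact h1.1
        · obtain ⟨i, hi⟩ := hI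
          have h1 := h i hi
          simp only [H, if_pos (hIJ hi)] at h1
          exact h1.2
      · rintro ⟨h1, h2⟩ i hi
        simp only [H, if_pos (hIJ hi)]
        exact ⟨h1 i hi, h2⟩
    by_cases hEq : I = J
    · -- not finitely generated
      refine ⟨fun hfg => ?_, fun h => absurd hEq h⟩
      exfalso
      have hKbot : ∀ j, (⨅ i ∈ I, K i j) = ⊥ := by
        intro j
        rw [eq_bot_iff]
        by_cases hj : ∃ l ∈ J, code l = j
        · obtain ⟨l, hl, rfl⟩ := hj
          have h1 : K l (code l) = ⊥ := by
            simp only [K]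
            rw [if_neg]
            rintro ⟨l', _, hne, he⟩
            exact hne (hcode he)
          rw [← h1]
          exact iInf_le_of_le l (iInf_le_of_le (hEq ▸ hl) le_rfl)
        · obtain ⟨i, hi⟩ := hI
          have h1 : K i j = ⊥ := by
            simp only [K]
            rw [if_neg]
            rintro ⟨l', hl', _, he⟩
            exact hj ⟨l', hl', he⟩
          rw [← h1]
          exact iInf_le_of_le i (iInf_le_of_le hi le_rfl)
      have hSbot : S (fun j => ⨅ i ∈ I, K i j) = ⊥ := by
        rw [eq_bot_iff, S, Subgroup.closure_le]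
        rintro _ ⟨j, m, hm, rfl⟩
        rw [hKbot j, Subgroup.mem_bot] at hm
        rw [hm, map_one]
        exact Subgroup.one_mem _
      have hmapeq : (⨅ i ∈ I, H i).map (MonoidHom.fst F V) = q.ker := by
        ext g
        constructor
        · rintro ⟨p, hp, rfl⟩
          have h1 := (hmem p).1 hp
          rw [hSbot, Subgroup.mem_bot] at h1
          rw [MonoidHom.mem_ker]
          change q p.1 = 1
          rw [h1.2, h1.1, map_one]
        · intro hg
          refine ⟨(g, 1), (hmem _).2 ⟨Subgroup.one_mem _, ?_⟩, rfl⟩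
          change q g = sig 1
          rw [map_one]
          exact hg
      apply ker_not_fg
      rw [← hmapeq]
      exact fg_map _ hfg
    · -- finitely generated
      refine ⟨fun _ => hEq, fun _ => ?_⟩
      obtain ⟨j0, hj0, hj0'⟩ : ∃ j ∈ J, j ∉ I := by
        by_contra hcon
        push Not at hcon
        exact hEq (Finset.Subset.antisymm hIJ hcon)
      have hKtop : ∀ j ∈ J, j ∉ I → (⨅ i ∈ I, K i (code j)) = ⊤ := by
        intro j hj hjI
        rw [eq_top_iff]
        refine le_iInf fun i => le_iInf fun hi => ?_
        simp only [K]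
        rw [if_pos ⟨j, hj, fun h => hjI (h ▸ hi), rfl⟩]
      let T : Set (F × V) := insert (y, 1) ((fun j => (x, vv (code j))) '' {j | j ∈ J ∧ j ∉ I})
      rw [Subgroup.fg_iff]
      refine ⟨T, ?_, ?_⟩
      · apply le_antisymm
        · rw [Subgroup.closure_le]
          intro p hp
          rcases Set.mem_insert_iff.1 hp with rfl | ⟨j, ⟨hj, hjI⟩, rfl⟩
          · refine (hmem _).2 ⟨Subgroup.one_mem _, ?_⟩
            change q y = sig 1
            rw [q_y, map_one]
          · refine (hmem _).2 ⟨?_, ?_⟩
            · refine of_mem_S _ _ _ ?_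
              rw [hKtop j hj hjI]
              exact Subgroup.mem_top _
            · change q x = sig (vv (code j))
              rw [q_x, vv, sig_of]
        · have hy : ((y, 1) : F × V) ∈ Subgroup.closure T :=
            Subgroup.subset_closure (Set.mem_insert _ _)
          have hx : ∀ j, j ∈ J → j ∉ I → ((x, vv (code j)) : F × V) ∈ Subgroup.closure T :=
            fun j hj hjI => Subgroup.subset_closure (Set.mem_insert_of_mem _ ⟨j, ⟨hj, hjI⟩, rfl⟩)
          have step1 : ∀ n : ℤ, ((x ^ n * y * x ^ (-n), 1) : F × V) ∈ Subgroup.closure T := by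
            intro n
            have h1 := Subgroup.zpow_mem _ (hx j0 hj0 hj0') n
            have h2 := Subgroup.mul_mem _ (Subgroup.mul_mem _ h1 hy) (Subgroup.inv_mem _ h1)
            have h3 : ((x, vv (code j0)) : F × V) ^ n * (y, 1) * ((x, vv (code j0)) ^ n)⁻¹ =
                (x ^ n * y * x ^ (-n), 1) := by
              refine Prod.ext ?_ ?_
              · simp
              · simp
            rw [h3] at h2
            exact h2
          have step2 : ∀ (g : F) (n : ℤ),
              ((x ^ n * g * x ^ (-(Multiplicative.toAdd (q g)) - n), 1) : F × V) ∈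
                Subgroup.closure T := by
            intro g
            induction g using FreeGroup.induction_on with
            | C1 =>
              intro n
              have : ((x ^ n * 1 * x ^ (-(Multiplicative.toAdd (q 1)) - n), 1) : F × V) = 1 := by
                rw [map_one, toAdd_one, mul_one, ← zpow_add]
                simp
              rw [this]
              exact Subgroup.one_mem _
            | of b =>
              intro n
              cases b
              · have h1 := step1 n
                change ((x ^ n * y * x ^ (-(Multiplicative.toAdd (q y)) - n), 1) : F × V) ∈ _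
                rw [q_y, toAdd_one, neg_zero, zero_sub]
                exact h1
              · change ((x ^ n * x * x ^ (-(Multiplicative.toAdd (q x)) - n), 1) : F × V) ∈ _
                have : ((x ^ n * x * x ^ (-(Multiplicative.toAdd (q x)) - n), 1) : F × V) = 1 := by
                  rw [q_x, toAdd_ofAdd, ← zpow_add_one, ← zpow_add]
                  ring_nf
                  simp
                rw [this]
                exact Subgroup.one_mem _
            | inv_of b _ =>
              intro n
              cases b
              · have h1 := Subgroup.inv_mem _ (step1 n)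
                change ((x ^ n * y⁻¹ * x ^ (-(Multiplicative.toAdd (q y⁻¹)) - n), 1) : F × V) ∈ _
                rw [map_inv, q_y, inv_one, toAdd_one, neg_zero, zero_sub]
                convert h1 using 1
                refine Prod.ext ?_ ?_
                · simp [mul_assoc]
                · simp
              · change ((x ^ n * x⁻¹ * x ^ (-(Multiplicative.toAdd (q x⁻¹)) - n), 1) : F × V) ∈ _
                have : ((x ^ n * x⁻¹ * x ^ (-(Multiplicative.toAdd (q x⁻¹)) - n), 1) : F × V) = 1 := by
                  rw [map_inv, q_x, toAdd_inv, toAdd_ofAdd, ← zpow_sub_one, ← zpow_add]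
                  ring_nf
                  simp
                rw [this]
                exact Subgroup.one_mem _
            | mul a b ha hb =>
              intro n
              have h1 := Subgroup.mul_mem _ (ha n) (hb (Multiplicative.toAdd (q a) + n))
              convert h1 using 1
              refine Prod.ext ?_ ?_
              · simp only [Prod.mk_mul_mk, map_mul, toAdd_mul]
                have e : x ^ (-(Multiplicative.toAdd (q a)) - n) *
                    x ^ ((Multiplicative.toAdd (q a)) + n) = 1 := by
                  rw [← zpow_add]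
                  ring_nf
                  simp
                calc x ^ n * (a * b) * x ^ (-(Multiplicative.toAdd (q a) +
                      Multiplicative.toAdd (q b)) - n)
                    = x ^ n * a * 1 * b * x ^ (-(Multiplicative.toAdd (q a) +
                      Multiplicative.toAdd (q b)) - n) := by group
                  _ = _ := by
                    rw [← e]
                    have e2 : -(Multiplicative.toAdd (q a) + Multiplicative.toAdd (q b)) - n =
                      -(Multiplicative.toAdd (q b)) - (Multiplicative.toAdd (q a) + n) := by ring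
                    rw [e2]
                    simp only [mul_assoc]
              · simp
          have step3 : ∀ v ∈ S (fun j => ⨅ i ∈ I, K i j),
              ((x ^ (Multiplicative.toAdd (sig v)), v) : F × V) ∈ Subgroup.closure T := by
            intro v hv
            rw [S] at hv
            induction hv using Subgroup.closure_induction with
            | mem v hv =>
              obtain ⟨j, m, hm, rfl⟩ := hv
              by_cases hm1 : m = 1
              · rw [hm1, map_one, map_one]
                exact Subgroup.one_mem _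
              · obtain ⟨l, hl, hlI, rfl⟩ : ∃ l ∈ J, l ∉ I ∧ code l = j := by
                  have h1 : ∀ i ∈ I, ∃ l ∈ J, l ≠ i ∧ code l = j := by
                    intro i hi
                    by_contra hcon
                    have h2 : K i j = ⊥ := if_neg hcon
                    have h3 : m ∈ K i j := by
                      simp only [Subgroup.mem_iInf] at hm
                      exact hm i hi
                    rw [h2, Subgroup.mem_bot] at h3
                    exact hm1 h3
                  obtain ⟨i0, hi0⟩ := hI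
                  obtain ⟨l, hl, _, hlj⟩ := h1 i0 hi0
                  refine ⟨l, hl, fun hlI => ?_, hlj⟩
                  obtain ⟨l', hl', hne, hl'j⟩ := h1 l hlI
                  exact hne (hcode (hl'j.trans hlj.symm))
                have h1 := Subgroup.zpow_mem _ (hx l hl hlI) (Multiplicative.toAdd m)
                rw [sig_of]
                convert h1 using 1
                refine Prod.ext ?_ ?_
                · simp
                · simp only [Prod.pow_snd, vv, ← map_zpow]
                  congr 1
                  rw [← ofAdd_zsmul, smul_eq_mul, mul_one, ofAdd_toAdd]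
            | one =>
              rw [map_one, toAdd_one, zpow_zero]
              exact Subgroup.one_mem _
            | mul a b _ _ iha ihb =>
              rw [map_mul, toAdd_mul, zpow_add]
              exact Subgroup.mul_mem _ iha ihb
            | inv a _ iha =>
              rw [map_inv, toAdd_inv, zpow_neg]
              exact Subgroup.inv_mem _ iha
          intro p hp
          obtain ⟨h1, h2⟩ := (hmem p).1 hp
          have h3 := Subgroup.mul_mem _ (step2 p.1 0) (step3 p.2 h1)
          convert h3 using 1
          refine Prod.ext ?_ ?_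
          · simp [h2]
          · simp
      · exact Set.Finite.insert _ (Set.Finite.image _ (Set.toFinite _))
  · refine ⟨fun _ h => hIJ (h ▸ Finset.Subset.refl _), fun _ => ?_⟩
    obtain ⟨i, hi, hiJ⟩ := Finset.not_subset.1 hIJ
    have h1 : (⨅ i ∈ I, H i) = ⊥ := by
      rw [eq_bot_iff]
      refine iInf_le_of_le i (iInf_le_of_le hi ?_)
      simp only [H]
      rw [if_neg hiJ]
    rw [h1]
    exact Subgroup.FG.bot

/-! ### From basic configurations to all configurations -/

/-- The configuration `c` is realizable in `G`: there is a family `H` of `k` subgroups of `G` such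
that, for every nonempty set `I` of indices, the intersection of the `H i` with `i ∈ I` is finitely
generated if and only if `c I` is `false`. -/
def Realizable (G : Type) [Group G] (k : ℕ) (c : Finset (Fin k) → Bool) : Prop :=
  ∃ H : Fin k → Subgroup G, ∀ I : Finset (Fin k), I.Nonempty →
    ((⨅ i ∈ I, H i).FG ↔ c I = false)

/-- `G` is intersection-full: every configuration is realizable in `G`. -/
def IntersectionFull (G : Type) [Group G] : Prop :=
  ∀ k : ℕ, 1 ≤ k → ∀ c : Finset (Fin k) → Bool, Realizable G k c

theorem Realizable.map {A B : Type} [Group A] [Group B] (f : A →* B)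
    (hf : Function.Injective f) {k : ℕ} {c : Finset (Fin k) → Bool} (h : Realizable A k c) :
    Realizable B k c := by
  obtain ⟨H, hH⟩ := h
  refine ⟨fun i => (H i).map f, fun I hI => ?_⟩
  rw [map_iInf_finset f hf H I hI, fg_map_iff f hf]
  exact hH I hI

open Classical in
theorem realizable_of_blk {A : Type} [Group A] (h : Blk A) (k : ℕ) (c : Finset (Fin k) → Bool) :
    Realizable (C A) k c := by
  -- the blocks
  let e : Finset (Fin k) → ℤ := fun J => ((Fintype.equivFin (Finset (Fin k)) J : ℕ) : ℤ)
  have he : Function.Injective e := fun a b hab =>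
    (Fintype.equivFin (Finset (Fin k))).injective (Fin.ext (Int.natCast_inj.1 hab))
  choose H hH using h k
  let K : Fin k → ℤ → Subgroup A := fun i j =>
    if hj : ∃ J : Finset (Fin k), ∃ _ : J.Nonempty, c J = true ∧ e J = j then
      H hj.choose hj.choose_spec.choose i else ⊥
  have hK : ∀ (J : Finset (Fin k)) (hJ : J.Nonempty), c J = true → ∀ i, K i (e J) = H J hJ i := by
    intro J hJ hc i
    have hj : ∃ J' : Finset (Fin k), ∃ _ : J'.Nonempty, c J' = true ∧ e J' = e J :=
      ⟨J, hJ, hc, rfl⟩
    have h1 : K i (e J) = H hj.choose hj.choose_spec.choose i := dif_pos hj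
    rw [h1]
    have h2 : hj.choose = J := he hj.choose_spec.choose_spec.2
    have h3 : ∀ (J' : Finset (Fin k)) (hJ' : J'.Nonempty), J' = J → H J' hJ' i = H J hJ i := by
      rintro J' hJ' rfl
      rfl
    exact h3 _ _ h2
  have hK0 : ∀ j, (¬ ∃ J : Finset (Fin k), ∃ _ : J.Nonempty, c J = true ∧ e J = j) →
      ∀ i, K i j = ⊥ := fun j hj i => dif_neg hj
  refine ⟨fun i => S (K i), fun I hI => ?_⟩
  rw [iInf_S]
  constructor
  · intro hfg
    by_contra hc
    have hc' : c I = true := by simpa using hc
    have h1 := fg_of_S_fg _ hfg (e I)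
    have h2 : (⨅ i ∈ I, K i (e I)) = ⨅ i ∈ I, H I hI i := by
      simp only [hK I hI hc']
    rw [h2] at h1
    exact (hH I hI I hI).1 h1 rfl
  · intro hc
    refine S_fg _ (Finset.univ.image e) ?_ ?_
    · intro j hj
      have hj' : ¬ ∃ J : Finset (Fin k), ∃ _ : J.Nonempty, c J = true ∧ e J = j := by
        rintro ⟨J, _, _, rfl⟩
        exact hj (Finset.mem_image_of_mem _ (Finset.mem_univ _))
      obtain ⟨i, hi⟩ := hI
      rw [eq_bot_iff, ← hK0 j hj' i]
      exact iInf_le_of_le i (iInf_le_of_le hi le_rfl)
    · intro j
      by_cases hj : ∃ J : Finset (Fin k), ∃ _ : J.Nonempty, c J = true ∧ e J = j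
      · obtain ⟨J, hJ, hcJ, rfl⟩ := hj
        have h2 : (⨅ i ∈ I, K i (e J)) = ⨅ i ∈ I, H J hJ i := by
          simp only [hK J hJ hcJ]
        rw [h2]
        refine (hH J hJ I hI).2 ?_
        rintro rfl
        rw [hc] at hcJ
        exact Bool.noConfusion hcJ
      · obtain ⟨i, hi⟩ := hI
        have h1 : (⨅ i ∈ I, K i j) = ⊥ := by
          rw [eq_bot_iff, ← hK0 j hj i]
          exact iInf_le_of_le i (iInf_le_of_le hi le_rfl)
        rw [h1]
        exact Subgroup.FG.bot

/-! ### Embedding `C A` -/

section embed

variable {A : Type} [Group A]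

theorem of_congr {i j : ℤ} (h : i = j) (m : A) :
    (CoprodI.of (i := i) m : C A) = CoprodI.of (i := j) m := by
  subst h; rfl

/-- the shift of the factors -/
def shiftHom (n : ℤ) : C A →* C A := CoprodI.lift fun j => CoprodI.of (M := fun _ : ℤ => A) (i := j + n)

theorem shiftHom_of (n j : ℤ) (m : A) :
    shiftHom n (CoprodI.of (i := j) m : C A) = CoprodI.of (i := j + n) m := by
  rw [shiftHom, CoprodI.lift_of]

theorem shiftHom_comp (n m : ℤ) (g : C A) : shiftHom n (shiftHom m g) = shiftHom (n + m) g := by
  have h : (shiftHom n).comp (shiftHom m) = (shiftHom (n + m) : C A →* C A) := by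
    refine CoprodI.ext_hom _ _ fun j => ?_
    ext a
    simp only [MonoidHom.comp_apply, shiftHom_of]
    exact of_congr (by ring) a
  exact DFunLike.congr_fun h g

theorem shiftHom_zero (g : C A) : shiftHom 0 g = g := by
  have h : (shiftHom 0 : C A →* C A) = MonoidHom.id _ := by
    refine CoprodI.ext_hom _ _ fun j => ?_
    ext a
    simp only [MonoidHom.comp_apply, shiftHom_of, MonoidHom.id_apply]
    exact of_congr (by ring) a
  rw [h]; rfl

/-- the shift automorphisms -/
def shiftAut : Multiplicative ℤ →* MulAut (C A) where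
  toFun n :=
    { toFun := shiftHom n.toAdd
      invFun := shiftHom (-n.toAdd)
      left_inv := fun g => by rw [shiftHom_comp, neg_add_cancel, shiftHom_zero]
      right_inv := fun g => by rw [shiftHom_comp, add_neg_cancel, shiftHom_zero]
      map_mul' := map_mul _ }
  map_one' := by
    refine MulEquiv.ext fun g => ?_
    exact shiftHom_zero g
  map_mul' n m := by
    refine MulEquiv.ext fun g => ?_
    exact (shiftHom_comp _ _ g).symm

/-- the semidirect product -/
abbrev E (A : Type) [Group A] : Type := SemidirectProduct (C A) (Multiplicative ℤ) shiftAut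

/-- conjugates of a subgroup by powers of `t` -/
def kappa {B : Type} [Group B] (ι : A →* B) (t : B) : C A →* B :=
  CoprodI.lift fun j => (MulAut.conj (t ^ j)).toMonoidHom.comp ι

theorem kappa_injective {B : Type} [Group B] (ι : A →* B) (t : B) (τ : B →* E A)
    (h1 : ∀ a, τ (ι a) = SemidirectProduct.inl (CoprodI.of (i := (0 : ℤ)) a))
    (h2 : τ t = SemidirectProduct.inr (Multiplicative.ofAdd 1)) :
    Function.Injective (kappa ι t) := by
  have h : τ.comp (kappa ι t) = (SemidirectProduct.inl : C A →* E A) := by
    refine CoprodI.ext_hom _ _ fun j => ?_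
    ext1 a
    simp only [MonoidHom.comp_apply, kappa, CoprodI.lift_of]
    change τ (t ^ j * ι a * (t ^ j)⁻¹) = _
    rw [map_mul, map_mul, map_inv, map_zpow, h1, h2, ← map_zpow, ← map_inv,
      ← SemidirectProduct.inl_aut]
    congr 1
    have e3 : ∀ (n : Multiplicative ℤ) (g : C A), shiftAut n g = shiftHom n.toAdd g :=
      fun _ _ => rfl
    rw [e3, shiftHom_of]
    refine of_congr ?_ a
    rw [← ofAdd_zsmul, toAdd_ofAdd]
    simp
  intro a b hab
  have h3 : (τ.comp (kappa ι t)) a = (τ.comp (kappa ι t)) b := by
    rw [MonoidHom.comp_apply, MonoidHom.comp_apply, hab]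
  rw [h] at h3
  exact SemidirectProduct.inl_injective h3

end embed

/-- `V` embeds into `F`. -/
theorem exists_V_F : ∃ f : V →* F, Function.Injective f := by
  let ι : Multiplicative ℤ →* F := zpowersHom F x
  let τ : F →* E (Multiplicative ℤ) := FreeGroup.lift fun b =>
    if b then SemidirectProduct.inl (vv 0) else SemidirectProduct.inr (Multiplicative.ofAdd 1)
  have hτx : τ x = SemidirectProduct.inl (vv 0) := by
    simp only [τ, x, FreeGroup.lift_apply_of]; rfl
  have hτy : τ y = SemidirectProduct.inr (Multiplicative.ofAdd 1) := by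
    simp only [τ, y, FreeGroup.lift_apply_of]; rfl
  refine ⟨kappa ι y, kappa_injective ι y τ ?_ hτy⟩
  intro a
  have h1 : ι a = x ^ (Multiplicative.toAdd a) := rfl
  rw [h1, map_zpow, hτx, ← map_zpow, vv, ← map_zpow, ← ofAdd_zsmul, smul_eq_mul, mul_one,
    ofAdd_toAdd]

/-- The group `M = F × F`. -/
abbrev M : Type := F × F

theorem blk_M : Blk M := by
  obtain ⟨f, hf⟩ := exists_V_F
  exact blk_FV.map ((MonoidHom.id F).prodMap f) (Function.injective_id.prodMap hf)

/-! ### The finitely presented group -/

/-- generators -/
abbrev Gen : Type := Option (Bool × Bool)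

/-- The relators: the two generators `some (false, _)` commute with the two generators
`some (true, _)`. -/
def rels : Set (FreeGroup Gen) :=
  Set.range fun p : Bool × Bool =>
    ⁅FreeGroup.of (some (false, p.1)), FreeGroup.of (some (true, p.2))⁆

/-- The group `(F × F) * ℤ`. -/
abbrev GG : Type := PresentedGroup rels

theorem comm_gen (a b : Bool) : Commute (PresentedGroup.of (some (false, a)) : GG)
    (PresentedGroup.of (some (true, b))) := by
  have h : (PresentedGroup.mk rels) ⁅FreeGroup.of (some (false, a)), FreeGroup.of (some (true, b))⁆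
      = 1 := PresentedGroup.one_of_mem ⟨(a, b), rfl⟩
  rw [map_commutatorElement, commutatorElement_eq_one_iff_mul_comm] at h
  exact h

/-- first factor -/
def ι1 : F →* GG := FreeGroup.lift fun b => PresentedGroup.of (some (false, b))
/-- second factor -/
def ι2 : F →* GG := FreeGroup.lift fun b => PresentedGroup.of (some (true, b))

theorem comm_ι (a b : F) : Commute (ι1 a) (ι2 b) := by
  have h1 : ∀ (i : Bool) (b : F), Commute (PresentedGroup.of (some (false, i)) : GG) (ι2 b) := by
    intro i b
    induction b using FreeGroup.induction_on with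
    | C1 => rw [map_one]; exact Commute.one_right _
    | of j => rw [ι2, FreeGroup.lift_apply_of]; exact comm_gen i j
    | inv_of j h => rw [map_inv]; exact h.inv_right
    | mul a b ha hb => rw [map_mul]; exact ha.mul_right hb
  induction a using FreeGroup.induction_on with
  | C1 => rw [map_one]; exact Commute.one_left _
  | of j => rw [ι1, FreeGroup.lift_apply_of]; exact h1 j b
  | inv_of j h => rw [map_inv]; exact h.inv_left
  | mul a b ha hb => rw [map_mul]; exact ha.mul_left hb

/-- The map `M → G`. -/
def ιM : M →* GG := MonoidHom.noncommCoprod ι1 ι2 comm_ι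

/-- The stable letter. -/
def tt : GG := PresentedGroup.of none

/-- A hom out of `GG` is given by a hom out of `M` and an element. -/
theorem exists_hom {B : Type} [Group B] (f : M →* B) (t : B) :
    ∃ τ : GG →* B, (∀ m, τ (ιM m) = f m) ∧ τ tt = t := by
  let g : Gen → B := fun o => match o with
    | none => t
    | some (false, b) => f (FreeGroup.of b, 1)
    | some (true, b) => f (1, FreeGroup.of b)
  have hg : ∀ r ∈ rels, FreeGroup.lift g r = 1 := by
    rintro _ ⟨⟨a, b⟩, rfl⟩
    rw [map_commutatorElement, FreeGroup.lift_apply_of, FreeGroup.lift_apply_of,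
      commutatorElement_eq_one_iff_mul_comm]
    change f (FreeGroup.of a, 1) * f (1, FreeGroup.of b) =
      f (1, FreeGroup.of b) * f (FreeGroup.of a, 1)
    rw [← map_mul, ← map_mul]
    simp
  refine ⟨PresentedGroup.toGroup hg, ?_, ?_⟩
  · have e1 : (PresentedGroup.toGroup hg).comp ι1 = f.comp (MonoidHom.inl F F) := by
      refine FreeGroup.ext_hom _ _ fun b => ?_
      rw [MonoidHom.comp_apply, ι1, FreeGroup.lift_apply_of, PresentedGroup.toGroup.of]
      rfl
    have e2 : (PresentedGroup.toGroup hg).comp ι2 = f.comp (MonoidHom.inr F F) := by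
      refine FreeGroup.ext_hom _ _ fun b => ?_
      rw [MonoidHom.comp_apply, ι2, FreeGroup.lift_apply_of, PresentedGroup.toGroup.of]
      rfl
    rintro ⟨a, b⟩
    have h1 : ιM (a, b) = ι1 a * ι2 b := rfl
    rw [h1, map_mul]
    have h2 : (PresentedGroup.toGroup hg) (ι1 a) = f (a, 1) := DFunLike.congr_fun e1 a
    have h3 : (PresentedGroup.toGroup hg) (ι2 b) = f (1, b) := DFunLike.congr_fun e2 b
    rw [h2, h3, ← map_mul]
    simp
  · exact PresentedGroup.toGroup.of hg

theorem GG_full : IntersectionFull GG := by
  intro k _ c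
  obtain ⟨τ, h1, h2⟩ := exists_hom (B := E M)
    ((SemidirectProduct.inl : C M →* E M).comp (CoprodI.of (M := fun _ : ℤ => M) (i := (0 : ℤ))))
    (SemidirectProduct.inr (Multiplicative.ofAdd 1))
  exact (realizable_of_blk blk_M k c).map (kappa ιM tt) (kappa_injective ιM tt τ h1 h2)

theorem GG_fp : Group.IsFinitelyPresented GG := by
  have h1 : Group.IsFinitelyPresented (FreeGroup Gen) := by
    refine ⟨Fintype.card Gen, (FreeGroup.freeGroupCongr (Fintype.equivFin Gen).symm).toMonoidHom,
      (FreeGroup.freeGroupCongr (Fintype.equivFin Gen).symm).surjective, ?_⟩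
    have : (FreeGroup.freeGroupCongr (Fintype.equivFin Gen).symm).toMonoidHom.ker = ⊥ :=
      (MonoidHom.ker_eq_bot_iff _).2 (FreeGroup.freeGroupCongr (Fintype.equivFin Gen).symm).injective
    rw [this]
    exact Subgroup.IsFinitelyNormallyGenerated.bot
  exact Group.IsFinitelyPresented.quotient (Subgroup.normalClosure rels)
    ⟨rels, Set.finite_range _, rfl⟩

/-! ### Free abelian subgroups -/

/-- The free abelian group with basis `ι` does not embed in `G`. -/
def NE (ι : Type) (G : Type) [Group G] : Prop :=
  ∀ f : Multiplicative (ι → ℤ) →* G, ¬ Function.Injective f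

theorem NE.of_inj {ι G H : Type} [Group G] [Group H] (f : G →* H) (hf : Function.Injective f)
    (h : NE ι H) : NE ι G := fun g hg => h (f.comp g) (hf.comp hg)

/-- Commuting elements of a free group are dependent. -/
theorem free_dep {α : Type} (u v : FreeGroup α) (h : u * v = v * u) :
    ∃ a b : ℤ, (a ≠ 0 ∨ b ≠ 0) ∧ u ^ a * v ^ b = 1 := by
  classical
  let H : Subgroup (FreeGroup α) := Subgroup.closure {u, v}
  have hcomm : ∀ g g' : H, g * g' = g' * g := by
    have h1 : ∀ x ∈ ({u, v} : Set (FreeGroup α)), ∀ y ∈ ({u, v} : Set (FreeGroup α)),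
        x * y = y * x := by
      intro x hx y hy
      simp only [Set.mem_insert_iff, Set.mem_singleton_iff] at hx hy
      rcases hx with rfl | rfl <;> rcases hy with rfl | rfl
      · rfl
      · exact h
      · exact h.symm
      · rfl
    intro g g'
    exact (Subgroup.isMulCommutative_closure h1).is_comm.comm g g'
  obtain ⟨ι, ⟨b⟩⟩ := IsFreeGroup.nonempty_basis (G := H)
  let e : H ≃* FreeGroup ι := b.repr
  have hsub : ∀ i j : ι, i = j := by
    intro i j
    by_contra hij
    have h1 : (FreeGroup.of i : FreeGroup ι) * FreeGroup.of j = FreeGroup.of j * FreeGroup.of i := by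
      have := hcomm (e.symm (FreeGroup.of i)) (e.symm (FreeGroup.of j))
      have h2 := congrArg e this
      simpa using h2
    have h2 := congrArg (FreeGroup.lift fun k : ι =>
      if k = i then (Equiv.swap 0 1 : Equiv.Perm (Fin 3)) else Equiv.swap 1 2) h1
    simp only [map_mul, FreeGroup.lift_apply_of, if_true] at h2
    rw [if_neg (Ne.symm hij)] at h2
    exact absurd h2 (by decide)
  have hu : u ∈ H := Subgroup.subset_closure (by simp)
  have hv : v ∈ H := Subgroup.subset_closure (by simp)
  have key : ∃ a b : ℤ, (a ≠ 0 ∨ b ≠ 0) ∧ (⟨u, hu⟩ : H) ^ a * ⟨v, hv⟩ ^ b = 1 := by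
    rcases isEmpty_or_nonempty ι with hι | ⟨⟨i⟩⟩
    · refine ⟨1, 0, Or.inl one_ne_zero, ?_⟩
      apply e.injective
      exact Subsingleton.elim _ _
    · let _ : Unique ι := ⟨⟨i⟩, fun j => hsub j i⟩
      let e' : H ≃* Multiplicative ℤ := e.trans FreeGroup.mulEquivIntOfUnique
      by_cases h0 : e' ⟨u, hu⟩ = 1
      · refine ⟨1, 0, Or.inl one_ne_zero, ?_⟩
        apply e'.injective
        simp [h0]
      · refine ⟨(e' ⟨v, hv⟩).toAdd, -(e' ⟨u, hu⟩).toAdd, Or.inr ?_, ?_⟩
        · intro h1
          apply h0
          rw [neg_eq_zero] at h1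
          exact toAdd_eq_zero.1 h1
        · apply e'.injective
          rw [map_mul, map_zpow, map_zpow, map_one]
          apply Multiplicative.toAdd.injective
          rw [toAdd_mul, toAdd_zpow, toAdd_zpow, toAdd_one, smul_eq_mul, smul_eq_mul]
          ring
  obtain ⟨a, b, hab, h1⟩ := key
  refine ⟨a, b, hab, ?_⟩
  have := congrArg Subtype.val h1
  simpa using this

theorem mul_comm_image {ι G : Type} [Group G] (f : Multiplicative (ι → ℤ) →* G) (a b : ι → ℤ) :
    f (Multiplicative.ofAdd a) * f (Multiplicative.ofAdd b) =
      f (Multiplicative.ofAdd b) * f (Multiplicative.ofAdd a) := by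
  rw [← map_mul f, ← map_mul f, mul_comm]

theorem NE_free (α : Type) : NE Bool (FreeGroup α) := by
  intro f hf
  obtain ⟨a, b, hab, h⟩ := free_dep (f (Multiplicative.ofAdd (Pi.single true 1)))
    (f (Multiplicative.ofAdd (Pi.single false 1))) (mul_comm_image f _ _)
  rw [← map_zpow f, ← map_zpow f, ← map_mul f, ← ofAdd_zsmul, ← ofAdd_zsmul, ← ofAdd_add] at h
  have h1 := hf (h.trans (map_one f).symm)
  have h2 : (a • Pi.single true (1 : ℤ) + b • Pi.single false (1 : ℤ) : Bool → ℤ) = 0 :=
    ofAdd_eq_one.1 h1
  rcases hab with h3 | h3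
  · apply h3
    have := congrFun h2 true
    simpa using this
  · apply h3
    have := congrFun h2 false
    simpa using this

theorem NE_ext {ι : Type} [Fintype ι] [DecidableEq ι] {G α : Type} [Group G]
    (φ : G →* FreeGroup α) (h : NE ι φ.ker) : NE (ι × Bool) G := by
  intro f hf
  choose a b hab hrel using fun i : ι => free_dep
    (φ (f (Multiplicative.ofAdd (Pi.single (i, false) 1))))
    (φ (f (Multiplicative.ofAdd (Pi.single (i, true) 1))))
    (by rw [← map_mul φ, ← map_mul φ, mul_comm_image])
  let L : (ι → ℤ) →+ (ι × Bool → ℤ) :=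
    { toFun := fun c p => c p.1 * (if p.2 then b p.1 else a p.1)
      map_zero' := by funext p; simp
      map_add' := by intro c d; funext p; exact add_mul _ _ _ }
  have hL : ∀ c : ι → ℤ, φ (f (Multiplicative.ofAdd (L c))) = 1 := by
    let N : AddSubgroup (ι → ℤ) :=
      { carrier := {c | φ (f (Multiplicative.ofAdd (L c))) = 1}
        zero_mem' := by simp
        add_mem' := by
          intro c d hc hd
          simp only [Set.mem_ofPred_eq] at hc hd ⊢
          rw [map_add, ofAdd_add, map_mul, map_mul, hc, hd, one_mul]
        neg_mem' := by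
          intro c hc
          simp only [Set.mem_ofPred_eq] at hc ⊢
          rw [map_neg, ofAdd_neg, map_inv, map_inv, hc, inv_one] }
    have h1 : ∀ i, (Pi.single i 1 : ι → ℤ) ∈ N := by
      intro i
      change φ (f (Multiplicative.ofAdd (L (Pi.single i 1)))) = 1
      have h2 : L (Pi.single i 1) = a i • Pi.single (i, false) 1 + b i • Pi.single (i, true) 1 := by
        funext ⟨j, t⟩
        simp only [L, AddMonoidHom.coe_mk, ZeroHom.coe_mk, Pi.add_apply, Pi.smul_apply, smul_eq_mul]
        by_cases hij : j = i
        · subst hij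
          cases t <;> simp [Pi.single_apply]
        · cases t <;> simp [Pi.single_apply, hij]
      rw [h2, ofAdd_add, ofAdd_zsmul, ofAdd_zsmul, map_mul, map_mul, map_zpow, map_zpow, map_zpow,
        map_zpow]
      exact hrel i
    intro c
    have h2 : c ∈ N := by
      have h3 : c = ∑ i, c i • (Pi.single i 1 : ι → ℤ) := by
        funext j
        simp [Finset.sum_apply, Pi.single_apply]
      rw [h3]
      exact N.sum_mem fun i _ => N.zsmul_mem (h1 i) _
    exact h2
  let g : Multiplicative (ι → ℤ) →* φ.ker :=
    { toFun := fun c => ⟨f (Multiplicative.ofAdd (L c.toAdd)), hL _⟩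
      map_one' := by
        apply Subtype.ext
        simp
      map_mul' := by
        intro c d
        apply Subtype.ext
        simp }
  refine h g ?_
  intro c d hcd
  have h1 : f (Multiplicative.ofAdd (L c.toAdd)) = f (Multiplicative.ofAdd (L d.toAdd)) :=
    congrArg Subtype.val hcd
  have h2 : L c.toAdd = L d.toAdd := Multiplicative.ofAdd.injective (hf h1)
  apply Multiplicative.toAdd.injective
  funext i
  rcases hab i with h3 | h3
  · have := congrFun h2 (i, false)
    change c.toAdd i * a i = d.toAdd i * a i at this
    exact mul_right_cancel₀ h3 this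
  · have := congrFun h2 (i, true)
    change c.toAdd i * b i = d.toAdd i * b i at this
    exact mul_right_cancel₀ h3 this

/-- the action of `M` on the free group with basis `M` -/
def act : M →* MulAut (FreeGroup M) where
  toFun m := FreeGroup.freeGroupCongr (Equiv.mulLeft m)
  map_one' := by
    refine MulEquiv.ext fun g => ?_
    have : (FreeGroup.freeGroupCongr (Equiv.mulLeft (1 : M))).toMonoidHom = MonoidHom.id _ := by
      refine FreeGroup.ext_hom _ _ fun m => ?_
      simp
    exact DFunLike.congr_fun this g
  map_mul' m n := by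
    refine MulEquiv.ext fun g => ?_
    have : (FreeGroup.freeGroupCongr (Equiv.mulLeft (m * n))).toMonoidHom =
        (FreeGroup.freeGroupCongr (Equiv.mulLeft m)).toMonoidHom.comp
          (FreeGroup.freeGroupCongr (Equiv.mulLeft n)).toMonoidHom := by
      refine FreeGroup.ext_hom _ _ fun k => ?_
      simp [mul_assoc]
    exact DFunLike.congr_fun this g

/-- `GG` embeds in this semidirect product. -/
abbrev S2 : Type := SemidirectProduct (FreeGroup M) M act

theorem exists_GG_S2 : ∃ f : GG →* S2, Function.Injective f := by
  obtain ⟨ζ, h1, h2⟩ := exists_hom (B := S2) SemidirectProduct.inr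
    (SemidirectProduct.inl (FreeGroup.of 1))
  let fn : FreeGroup M →* GG := FreeGroup.lift fun m => ιM m * tt * (ιM m)⁻¹
  have hfn : ∀ m, fn (FreeGroup.of m) = ιM m * tt * (ιM m)⁻¹ := fun m => by
    simp only [fn, FreeGroup.lift_apply_of]
  let back : S2 →* GG := SemidirectProduct.lift fn ιM (by
    intro g
    refine FreeGroup.ext_hom _ _ fun m => ?_
    have e1 : (act g) (FreeGroup.of m) = FreeGroup.of (g * m) := by
      change FreeGroup.freeGroupCongr (Equiv.mulLeft g) (FreeGroup.of m) = _
      simp
    simp only [MonoidHom.comp_apply, MulEquiv.coe_toMonoidHom, e1, hfn, MulAut.conj_apply, map_mul]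
    group)
  have hid : back.comp ζ = MonoidHom.id GG := by
    refine PresentedGroup.ext fun o => ?_
    rw [MonoidHom.comp_apply, MonoidHom.id_apply]
    rcases o with _ | ⟨t, b⟩
    · change back (ζ tt) = tt
      rw [h2, SemidirectProduct.lift_inl, hfn, map_one]
      group
    · cases t
      · have e : (PresentedGroup.of (some (false, b)) : GG) = ιM (FreeGroup.of b, 1) := by
          change _ = ι1 (FreeGroup.of b) * ι2 1
          rw [map_one, mul_one, ι1, FreeGroup.lift_apply_of]
        rw [e, h1, SemidirectProduct.lift_inr]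
      · have e : (PresentedGroup.of (some (true, b)) : GG) = ιM (1, FreeGroup.of b) := by
          change _ = ι1 1 * ι2 (FreeGroup.of b)
          rw [map_one, one_mul, ι2, FreeGroup.lift_apply_of]
        rw [e, h1, SemidirectProduct.lift_inr]
  refine ⟨ζ, fun a b hab => ?_⟩
  have h3 : (back.comp ζ) a = (back.comp ζ) b := by
    rw [MonoidHom.comp_apply, MonoidHom.comp_apply, hab]
  rw [hid] at h3
  exact h3

theorem NE_S2 : NE ((Bool × Bool) × Bool) S2 := by
  let r : S2 →* M := SemidirectProduct.rightHom
  let φ1 : S2 →* F := (MonoidHom.fst F F).comp r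
  refine NE_ext φ1 ?_
  let φ2 : φ1.ker →* F := (MonoidHom.snd F F).comp (r.comp φ1.ker.subtype)
  refine NE_ext φ2 ?_
  let g : φ2.ker →* FreeGroup M :=
    { toFun := fun z => z.1.1.left
      map_one' := rfl
      map_mul' := by
        rintro ⟨⟨z, hz1⟩, hz2⟩ ⟨⟨w, _⟩, _⟩
        have hz : z.right = 1 := Prod.ext hz1 hz2
        change (z * w).left = z.left * w.left
        rw [SemidirectProduct.mul_left, hz, map_one]
        rfl }
  refine NE.of_inj g ?_ (NE_free M)
  rintro ⟨⟨z, hz1⟩, hz2⟩ ⟨⟨w, hw1⟩, hw2⟩ hzw
  have hz : z.right = 1 := Prod.ext hz1 hz2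
  have hw : w.right = 1 := Prod.ext hw1 hw2
  apply Subtype.ext
  apply Subtype.ext
  exact SemidirectProduct.ext hzw (hz.trans hw.symm)

theorem GG_no : ¬ ∃ f : FreeGroup (Fin 2) × Multiplicative (Fin 8 → ℤ) →* GG,
    Function.Injective f := by
  rintro ⟨f, hf⟩
  obtain ⟨ζ, hζ⟩ := exists_GG_S2
  have h := NE.of_inj ζ hζ NE_S2
  let e : Fin 8 ≃ ((Bool × Bool) × Bool) := Fintype.equivOfCardEq (by decide)
  let g : Multiplicative (((Bool × Bool) × Bool) → ℤ) →* Multiplicative (Fin 8 → ℤ) :=
    { toFun := fun c => Multiplicative.ofAdd (fun i => c.toAdd (e i))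
      map_one' := rfl
      map_mul' := fun _ _ => rfl }
  have hg : Function.Injective g := by
    intro c d hcd
    apply Multiplicative.toAdd.injective
    funext p
    have h1 := congrFun (congrArg Multiplicative.toAdd hcd) (e.symm p)
    change c.toAdd (e (e.symm p)) = d.toAdd (e (e.symm p)) at h1
    rwa [Equiv.apply_symm_apply] at h1
  refine h (f.comp ((MonoidHom.inr (FreeGroup (Fin 2)) (Multiplicative (Fin 8 → ℤ))).comp g)) ?_
  intro a b hab
  apply hg
  have h2 := hf hab
  exact (Prod.ext_iff.1 h2).2

/-- **Theorem.** There are a finitely presented intersection-full group `G` and `m : ℕ` such that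
`F₂ × ℤ ^ m` does not embed in `G`. -/
theorem result : ∃ (G : Type) (_ : Group G), Group.IsFinitelyPresented G ∧ IntersectionFull G ∧
    ∃ m : ℕ, ¬ ∃ f : FreeGroup (Fin 2) × Multiplicative (Fin m → ℤ) →* G, Function.Injective f :=
  ⟨GG, inferInstance, GG_fp, GG_full, 8, GG_no⟩

end Pool.Agent.Results.MP_d567b2_al.IntersectionFull
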